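import Pool.Agent.R730.Gad.Cofin

/-!
# MP_1a9025_nt, Q1 for all `h`: a cofinite part, or one block in every part
-/

namespace Pool.Agent.Results.MP_1a9025_nt.AllOrders

open R730.Gad

/-- Let some part be cofinite, or let every part `W_k` contain one block `{j, …, j+s-1}` of
consecutive integers with `g_{j+s} ≥ (h+1) g_j`.  Then `A \ {a}` is a minimal asymptotic basis of
order `h` iff `a = 0` and no part is cofinite: `S(𝒢,𝒲)` is empty if some part is cofinite and
`{0}` otherwise. -/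
theorem result {h : ℕ} {g : ℕ → ℕ} (hg : IsGAdic g) {W : Fin h → Set ℕ} (hW : IsPartition W)
    (hyp : (∃ i, ((W i)ᶜ).Finite) ∨
      ∀ k, ∃ j s, (∀ q, j ≤ q → q < j + s → q ∈ W k) ∧ (h + 1) * g j ≤ g (j + s))
    (a : ℕ) (ha : a ∈ base g W) :
    IsMinAsympBasis h (base g W \ {a}) ↔ a = 0 ∧ ∀ i, ((W i)ᶜ).Infinite := by
  obtain ⟨k0, _⟩ := hW.cover 0
  have hh : 0 < h := k0.pos
  rw [min_iff]
  constructor
  · rintro ⟨h1, h2⟩
    have hinf : ∀ i, ((W i)ᶜ).Infinite := by
      intro i hfin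
      by_cases ha0 : a = 0
      · obtain ⟨q, hq⟩ := hW.nonempty i
        have h4 := hg.pos q
        refine h2 (g q) ((mem_base_iff hg hh W _).2 ⟨i, dig_g hg hq⟩) (by omega) ?_
        rw [ha0]
        exact cofinite_zero hg hW (by omega) (dig_g hg hq) hfin
      · obtain ⟨a', ha', hne, hb⟩ := cofinite_any hg hW hfin ha0 h1
        exact h2 a' ha' hne hb
    refine ⟨?_, hinf⟩
    rcases hyp with ⟨i, hi⟩ | hblock
    · exact absurd hi (hinf i)
    · by_contra ha0
      obtain ⟨i, hi⟩ := (mem_base_iff hg hh W a).1 ha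
      exact no_block hg hW ha0 hi (hinf i) (fun k _ => hblock k) h1
  · rintro ⟨rfl, hinf⟩
    refine ⟨zero_removable hg hW, ?_⟩
    intro a' ha' hne hb
    rcases hyp with ⟨i, hi⟩ | hblock
    · exact absurd hi (hinf i)
    · obtain ⟨i, hi⟩ := (mem_base_iff hg hh W a').1 ha'
      refine no_block hg hW hne hi (hinf i) (fun k _ => hblock k) (hb.mono ?_)
      intro x hx
      exact ⟨hx.1, fun hxa => hx.2 (Set.mem_insert_of_mem _ hxa)⟩

end Pool.Agent.Results.MP_1a9025_nt.AllOrders
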