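import Pool.Agent.R730.Gad.TwoStruct

/-!
# MP_1a9025_nt, Q1 for `h = 2`: the exact set `S(𝒢,𝒲)`
-/

namespace Pool.Agent.Results.MP_1a9025_nt.TwoParts

open R730.Gad

/-- For `h = 2`, every `𝒢`-adic sequence and every partition into two parts, where `W_i` is the
part containing `0`: `A \ {a}` is a minimal asymptotic basis of order `2` iff both parts are
infinite and one of the following holds.
(i) `a = 0` and some `j ∉ W_i` has `g_{j+1} ≠ 2 g_j` or `j - 1 ∉ W_i`;
(ii) `a = 0`, `W_i` is the set of even numbers, `g_{j+1} = 2 g_j` for `j ≥ 1`, and `g_1 ≤ 3`;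
(iii) `a = 1`, `W_i` is the set of even numbers, `g_{j+1} = 2 g_j` for `j ≥ 1`, and `g_1 = 3`. -/
theorem result {g : ℕ → ℕ} (hg : IsGAdic g) {W : Fin 2 → Set ℕ} (hW : IsPartition W)
    {i : Fin 2} (h0 : 0 ∈ W i) (a : ℕ) (ha : a ∈ base g W) :
    IsMinAsympBasis 2 (base g W \ {a}) ↔
      (W i).Infinite ∧ ((W i)ᶜ).Infinite ∧
      ((a = 0 ∧ ¬ (∀ j, j ∉ W i → g (j + 1) = 2 * g j ∧ 1 ≤ j ∧ j - 1 ∈ W i)) ∨
       (a = 0 ∧ W i = {n | Even n} ∧ (∀ j, 1 ≤ j → g (j + 1) = 2 * g j) ∧ g 1 ≤ 3) ∨
       (a = 1 ∧ W i = {n | Even n} ∧ (∀ j, 1 ≤ j → g (j + 1) = 2 * g j) ∧ g 1 = 3)) := by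
  classical
  obtain ⟨k, hki⟩ : ∃ k : Fin 2, k ≠ i := exists_ne i
  have hck := compl_eq hW hki
  have hcki : (W k)ᶜ = W i := by rw [hck, compl_compl]
  have hmem : ∀ l x, Dig g (W l) x → x ∈ base g W :=
    fun l x hx => (mem_base_iff hg (by norm_num) W x).2 ⟨l, hx⟩
  have hsub : ∀ x y : ℕ, base g W \ {x, y} ⊆ base g W \ {y} := by
    intro x y z hz
    exact ⟨hz.1, fun h => hz.2 (Set.mem_insert_of_mem _ h)⟩
  -- no part can be cofinite
  have hcof : ∀ l m : Fin 2, m ≠ l → ((W l)ᶜ).Finite → ¬ IsMinAsympBasis 2 (base g W \ {a}) := by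
    intro l m hml hfin hmin
    rw [min_iff] at hmin
    have hinf : (W l).Infinite := by
      intro hcon
      have h3 : (Set.univ : Set ℕ).Finite := by
        rw [← Set.union_compl_self (W l)]
        exact hcon.union hfin
      exact Set.infinite_univ h3
    obtain ⟨q, hq, hqa⟩ := hinf.exists_gt a
    have h4 := hg.self_le q
    by_cases ha0 : a = 0
    · refine hmin.2 (g q) (hmem l _ (dig_g hg hq)) (by omega) ?_
      rw [ha0]
      exact cofinite_zero hg hW (by omega) (dig_g hg hq) hfin
    · obtain ⟨l', hl'⟩ := (mem_base_iff hg (by norm_num) W a).1 ha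
      by_cases hll : l' = l
      · rw [hll] at hl'
        exact hmin.2 (g q) (hmem l _ (dig_g hg hq)) (by omega)
          (cofinite_pair hg hW ha0 (by omega) hl' (dig_g hg hq) hfin)
      · have hlm : l' = m := by omega
        rw [hlm] at hl'
        have hcm : (W m)ᶜ = W l := by rw [compl_eq hW hml, compl_compl]
        have hR := (removable_iff hg hW ha0 hl' (by rw [hcm]; exact hinf)).1 hmin.1
        obtain ⟨K, hK⟩ := hfin.bddAbove
        have hnot : ∀ p, K < p → p ∉ W m := by
          intro p hp hpm
          rw [compl_eq hW hml] at hpm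
          have := hK hpm
          omega
        have h5 := (hR (K + 2) (hnot _ (by omega))).2
        rw [maxrun, not_or] at h5
        exact h5.1 (hnot _ (by omega))
  constructor
  · intro hmin
    have hinf' : ((W i)ᶜ).Infinite := fun hfin => hcof i k hki hfin hmin
    have hinf : (W i).Infinite := by
      intro hfin
      refine hcof k i (Ne.symm hki) ?_ hmin
      rw [hcki]; exact hfin
    refine ⟨hinf, hinf', ?_⟩
    rw [min_iff] at hmin
    have hineq : ∀ x, Dig g (W i) x → RR g (W i) x →
        ∀ J, wt g (W i)ᶜ J + x % g J ≤ 2 * wt g (W i) J :=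
      fun x hx hR => (ineq_iff hg hx).2 hR
    by_cases ha0 : a = 0
    · by_cases hC : CC g (W i)
      · right; left
        refine ⟨ha0, structure_of hg h0 hC ?_⟩
        intro x hx0 hx1 hx hR
        refine hmin.2 x (hmem i x hx) (by rw [ha0]; exact hx0) ?_
        rw [ha0]
        exact remove_zero_and hg hW hki hinf' hC hx0 hx1 hx (hineq x hx hR)
      · left; exact ⟨ha0, hC⟩
    · obtain ⟨l, hl⟩ := (mem_base_iff hg (by norm_num) W a).1 ha
      by_cases hli : l = i
      · rw [hli] at hl
        have hR : RR g (W i) a := (removable_iff hg hW ha0 hl hinf').1 hmin.1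
        have hC : CC g (W i) := cc_of hR
        have ha1 : a = 1 := by
          by_contra hne
          refine hmin.2 0 (hmem i 0 (dig_zero _)) (Ne.symm ha0) ?_
          rw [Set.pair_comm]
          exact remove_zero_and hg hW hki hinf' hC ha0 hne hl (hineq a hl hR)
        have hst := structure_of hg h0 hC (by
          intro x hx0 hx1 hx hRx
          refine hmin.2 x (hmem i x hx) (by rw [ha1]; exact hx1) ?_
          exact remove_pair hg hW hki hinf' ha0 hx0 hl hx (hineq a hl hR) (hineq x hx hRx))
        right; right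
        refine ⟨ha1, hst.1, hst.2.1, ?_⟩
        have h1V : 1 ∉ W i := by rw [hst.1]; simp
        rw [ha1] at hR
        have := one_g1 hg h1V hR
        have := hst.2.2
        omega
      · have hlk : l = k := by omega
        rw [hlk] at hl
        exact absurd hmin.1 (not_removable_other hg hW hki h0 ha0 hl hinf)
  · rintro ⟨hinf, hinf', hcase⟩
    rw [min_iff]
    have hother : ∀ x, x ≠ 0 → Dig g (W k) x → ¬ IsAsympBasis 2 (base g W \ {x}) :=
      fun x hx hd => not_removable_other hg hW hki h0 hx hd hinf
    rcases hcase with ⟨ha0, hC⟩ | ⟨ha0, hV, hr, hg1⟩ | ⟨ha1, hV, hr, hg1⟩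
    · rw [ha0]
      refine ⟨zero_removable hg hW, ?_⟩
      intro x hx hx0 hb
      obtain ⟨l, hl⟩ := (mem_base_iff hg (by norm_num) W x).1 hx
      by_cases hli : l = i
      · rw [hli] at hl
        exact hC (cc_of ((removable_iff hg hW hx0 hl hinf').1 (hb.mono (hsub 0 x))))
      · have hlk : l = k := by omega
        rw [hlk] at hl
        exact hother x hx0 hl (hb.mono (hsub 0 x))
    · rw [ha0]
      refine ⟨zero_removable hg hW, ?_⟩
      intro x hx hx0 hb
      by_cases hx1 : x = 1
      · rw [hx1] at hb
        exact not_zero_one hg hW hki h0 hinf hinf' hb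
      · obtain ⟨l, hl⟩ := (mem_base_iff hg (by norm_num) W x).1 hx
        by_cases hli : l = i
        · rw [hli] at hl
          have hR : RR g (W i) x := (removable_iff hg hW hx0 hl hinf').1 (hb.mono (hsub 0 x))
          rw [hV] at hR hl
          have := even_no hg hr hg1 hl hR
          omega
        · have hlk : l = k := by omega
          rw [hlk] at hl
          exact hother x hx0 hl (hb.mono (hsub 0 x))
    · have hd1 : Dig g (W i) 1 := by
        have := dig_g hg h0
        rwa [hg.zero] at this
      rw [ha1]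
      refine ⟨?_, ?_⟩
      · apply (removable_iff hg hW one_ne_zero hd1 hinf').2
        have := RR_one hg hr hg1
        rw [← hV] at this
        exact this
      · intro x hx hx1 hb
        by_cases hx0 : x = 0
        · rw [hx0, Set.pair_comm] at hb
          exact not_zero_one hg hW hki h0 hinf hinf' hb
        · obtain ⟨l, hl⟩ := (mem_base_iff hg (by norm_num) W x).1 hx
          by_cases hli : l = i
          · rw [hli] at hl
            have hR : RR g (W i) x := (removable_iff hg hW hx0 hl hinf').1 (hb.mono (hsub 1 x))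
            rw [hV] at hR hl
            have := even_no hg hr (by omega) hl hR
            omega
          · have hlk : l = k := by omega
            rw [hlk] at hl
            exact hother x hx0 hl (hb.mono (hsub 1 x))

end Pool.Agent.Results.MP_1a9025_nt.TwoParts
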